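import Pool.Agent.H33.SL1

set_option autoImplicit false

namespace Pool.Agent.Results.MP_d4f5ca_al.Neg

open Pool.Agent.H33.SL MulOpposite

def RSD (A : Type) [Ring A] : Prop :=
  ∃ (ι : Type) (D : ι → Submodule Aᵐᵒᵖ A), iSupIndep D ∧ iSup D = ⊤ ∧
    ∀ i, ∀ F G H : Submodule Aᵐᵒᵖ (D i), F ⊓ (G ⊔ H) = (F ⊓ G) ⊔ (F ⊓ H)

@[ext] structure T where
  a : ZMod 2
  b : ZMod 2
  c : ZMod 2
  p : ZMod 2
  q : ZMod 2
deriving DecidableEq, Fintype

instance : Add T := ⟨fun x y => ⟨x.a + y.a, x.b + y.b, x.c + y.c, x.p + y.p, x.q + y.q⟩⟩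
instance : Neg T := ⟨fun x => ⟨-x.a, -x.b, -x.c, -x.p, -x.q⟩⟩
instance : Zero T := ⟨⟨0, 0, 0, 0, 0⟩⟩
instance : One T := ⟨⟨1, 1, 1, 0, 0⟩⟩
instance : Mul T := ⟨fun x y =>
  ⟨x.a * y.a, x.b * y.b, x.c * y.c, x.a * y.p + x.p * y.b, x.a * y.q + x.q * y.c⟩⟩

lemma add_d (x y : T) : x + y = ⟨x.a + y.a, x.b + y.b, x.c + y.c, x.p + y.p, x.q + y.q⟩ := rfl
lemma mul_d (x y : T) : x * y =
    ⟨x.a * y.a, x.b * y.b, x.c * y.c, x.a * y.p + x.p * y.b, x.a * y.q + x.q * y.c⟩ := rfl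

instance : Ring T := Ring.ofMinimalAxioms
  (fun _ _ _ => by ext <;> simp only [add_d] <;> ring) (by decide +kernel) (by decide +kernel)
  (fun _ _ _ => by ext <;> simp only [mul_d] <;> ring) (by decide +kernel) (by decide +kernel)
  (fun _ _ _ => by ext <;> simp only [add_d, mul_d] <;> ring)
  (fun _ _ _ => by ext <;> simp only [add_d, mul_d] <;> ring)

def sw (x : T) : T := ⟨x.a, x.c, x.b, x.q, x.p⟩

def ph : T ≃+* T where
  toFun := sw
  invFun := sw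
  left_inv _ := rfl
  right_inv _ := rfl
  map_mul' _ _ := rfl
  map_add' _ _ := rfl

lemma ph_pow (i : ℤ) : (∀ x, (ph ^ i) x = x) ∨ ∀ x, (ph ^ i) x = sw x := by
  have h2 : ph ^ (2 : ℤ) = 1 := by ext x <;> rfl
  obtain ⟨k, rfl | rfl⟩ := Int.even_or_odd' i
  · left; simp [zpow_mul, h2]
  · right; simp [zpow_add, zpow_mul, h2]; exact fun _ => rfl

def e : Fin 3 → T := ![⟨1, 0, 0, 0, 0⟩, ⟨0, 1, 0, 0, 0⟩, ⟨0, 0, 1, 0, 0⟩]

def fixS {A : Type} [Ring A] (u v : A) : Submodule Aᵐᵒᵖ A where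
  carrier := {x | u * x = v * x}
  add_mem' h1 h2 := by simp_all [mul_add]
  zero_mem' := by simp
  smul_mem' r x h := by simp_all [← mul_assoc]

lemma yes : RSD T := by
  refine ⟨Fin 3, fun i => fixS (e i) 1, fun i => ?_, top_unique fun x _ => ?_,
    fun i F G H => le_antisymm ?_ le_inf_sup⟩
  · refine Disjoint.mono_right (c := fixS (e i) 0) (iSup₂_le fun j hj x hx => ?_)
      (Submodule.disjoint_def.2 fun x h1 h2 => ?_)
    · have : ∀ i j x, j ≠ i → e j * x = 1 * x → e i * x = 0 * x := by decide +kernel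
      exact this i j x hj hx
    · simpa using (show e i * x = 1 * x from h1).symm.trans h2
  · have h1 : ∀ x, x = ∑ i, e i * x := by decide +kernel
    have h2 : ∀ i x, e i * (e i * x) = 1 * (e i * x) := by decide +kernel
    rw [h1 x]
    exact sum_mem fun i _ => Submodule.mem_iSup_of_mem i (h2 i x)
  · rintro x ⟨hx, hx'⟩
    obtain ⟨g, hg, h, hh, rfl⟩ := Submodule.mem_sup.1 hx'
    have : ∀ i g h, e i * g = 1 * g → e i * h = 1 * h →
        ∃ a, (∃ u, (g + h) * a = g * u) ∧ ∃ v, (g + h) * (1 - a) = h * v := by decide +kernel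
    obtain ⟨a, ⟨u, hu⟩, v, hv⟩ := this i g h g.2 h.2
    refine Submodule.mem_sup.2 ⟨op a • (g + h), ⟨F.smul_mem _ hx, ?_⟩, op (1 - a) • (g + h),
      ⟨F.smul_mem _ hx, ?_⟩, by rw [← add_smul]; simp⟩
    · rw [show op a • (g + h) = op u • g from Subtype.ext hu]
      exact G.smul_mem _ hg
    · rw [show op (1 - a) • (g + h) = op v • h from Subtype.ext hv]
      exact H.smul_mem _ hh

lemma no {R : Type} [Ring R] {c : R → ℤ → T} (h : IsSL ph c) : ¬ RSD R := by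
  rintro ⟨ι, D, h1, h2, h3⟩
  classical
  let E := h.mono (e 0) 0
  have k1 : ∀ r n, c (E * r * E) n = ⟨(c r n).a, 0, 0, 0, 0⟩ := fun r n => by
    have : ∀ x : T, e 0 * x * e 0 = ⟨x.a, 0, 0, 0, 0⟩ ∧ sw (e 0) = e 0 := by decide +kernel
    rcases ph_pow n with k | k <;> simp [E, h.mul_mono, h.mono_mul, k, this, (this 0).2]
  have k2 : ∀ r, E * r * E = r * E := fun r => h.ext fun n => by
    have : ∀ x : T, x * e 0 = ⟨x.a, 0, 0, 0, 0⟩ ∧ sw (e 0) = e 0 := by decide +kernel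
    rw [k1]
    rcases ph_pow n with k | k <;> simp [E, h.mul_mono, k, this, (this 0).2]
  have k3 : ∀ r s, r * s = 0 → r * E = 0 ∨ s * E = 0 := fun r s hrs => by
    by_contra! hc
    obtain ⟨p, p1, p2⟩ := h.ex_low hc.1
    obtain ⟨q, q1, q2⟩ := h.ex_low hc.2
    have := h.low p2 q2
    rw [← mul_assoc, mul_assoc r, mul_assoc r, k2, ← mul_assoc, hrs, zero_mul, h.zero] at this
    rw [← k2, k1] at p1 q1
    rw [← k2 r, ← k2 s, k1, k1] at this
    have k : ∀ a b : ZMod 2, (⟨a, 0, 0, 0, 0⟩ : T) ≠ 0 → (⟨b, 0, 0, 0, 0⟩ : T) ≠ 0 →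
      0 ≠ (⟨a, 0, 0, 0, 0⟩ : T) * ⟨b, 0, 0, 0, 0⟩ := by decide +kernel
    rcases ph_pow p with l | l <;> exact k _ _ p1 q1 (by rw [l] at this; exact this)
  obtain ⟨f, hf, h4⟩ := (Submodule.mem_iSup_iff_exists_finsupp D 1).1 (h2 ▸ trivial)
  have hE : E ≠ 0 := fun e0 => by
    have := congrFun (h.c_mono (e 0) 0) 0
    rw [show h.mono (e 0) 0 = 0 from e0, h.zero, Pi.single_eq_same] at this
    exact absurd this (by decide)
  obtain ⟨i, hi⟩ : ∃ i, f i * E ≠ 0 := by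
    by_contra! hc
    exact hE (by rw [← one_mul E, ← h4, Finsupp.sum, Finset.sum_mul]; simp [hc])
  have h5 : (1 - f i) * f i = 0 := by
    refine Submodule.disjoint_def.1 (h1 i) _ ?_ ?_
    · rw [sub_mul, one_mul]
      exact sub_mem (hf i) ((D i).smul_mem (op (f i)) (hf i))
    · refine Submodule.smul_mem _ (op (f i)) ?_
      have hi' : i ∈ f.support := Finsupp.mem_support_iff.2 fun e0 => hi (by rw [e0, zero_mul])
      rw [← h4, Finsupp.sum, ← Finset.add_sum_erase _ _ hi', add_sub_cancel_left]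
      exact sum_mem fun j hj => Submodule.mem_iSup_of_mem j
        (Submodule.mem_iSup_of_mem (Finset.ne_of_mem_erase hj) (hf j))
  have h6 : ∀ r, E * r ∈ D i := fun r => by
    have := (k3 _ _ h5).resolve_right hi
    rw [sub_mul, one_mul, sub_eq_zero] at this
    rw [this, mul_assoc]
    exact (D i).smul_mem (op _) (hf i)
  let α : T := ⟨0, 0, 0, 1, 0⟩
  let u : D i := ⟨E * h.mono α 0, h6 _⟩
  let v : D i := ⟨E * h.mono (sw α) 1, h6 _⟩
  have cu : ∀ r n, c (op r • u : D i) n = ⟨0, 0, 0, (c r n).b, 0⟩ := fun r n => by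
    have : ∀ x : T, e 0 * (α * x) = ⟨0, 0, 0, x.b, 0⟩ := by decide +kernel
    simp [u, E, mul_assoc, h.mono_mul, this]
  have cv : ∀ r n, c (op r • v : D i) n = ⟨0, 0, 0, 0, (c r (n - 1)).b⟩ := fun r n => by
    have : ∀ x : T, e 0 * (sw α * ph x) = ⟨0, 0, 0, 0, x.b⟩ := by decide +kernel
    simp [v, E, mul_assoc, h.mono_mul, this]
  have cw : ∀ r n, c (op r • (u + v) : D i) n = ⟨0, 0, 0, (c r n).b, (c r (n - 1)).b⟩ :=
    fun r n => by rw [smul_add, Submodule.coe_add, h.add', cu, cv]; simp [add_d]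
  have h7 : u + v ∈ (Rᵐᵒᵖ ∙ (u + v)) ⊓ ((Rᵐᵒᵖ ∙ u) ⊔ (Rᵐᵒᵖ ∙ v)) :=
    ⟨Submodule.mem_span_singleton_self _, Submodule.add_mem_sup
      (Submodule.mem_span_singleton_self _) (Submodule.mem_span_singleton_self _)⟩
  rw [h3] at h7
  obtain ⟨x, ⟨x1, x2⟩, y, ⟨y1, y2⟩, h8⟩ := Submodule.mem_sup.1 h7
  obtain ⟨r, rfl⟩ := Submodule.mem_span_singleton.1 x1
  obtain ⟨r', hr⟩ := Submodule.mem_span_singleton.1 x2
  obtain ⟨s, rfl⟩ := Submodule.mem_span_singleton.1 y1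
  obtain ⟨s', hs⟩ := Submodule.mem_span_singleton.1 y2
  have a1 := congrArg T.q ((cu r'.unop 1).symm.trans ((congrArg (fun z : D i => c z 1) hr).trans
    (cw r.unop 1)))
  have a2 := congrArg T.p ((cv s'.unop 0).symm.trans ((congrArg (fun z : D i => c z 0) hs).trans
    (cw s.unop 0)))
  have a3 := congrArg (fun z : D i => c z 0) h8
  have a4 := cw 1 0
  simp only [sub_self] at a1 a2
  simp only [op_one, one_smul, h.one, Pi.single_eq_same] at a4
  rw [← a3, Submodule.coe_add, h.add'] at a4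
  have a5 := congrArg T.p ((congrArg₂ (· + ·) (cw r.unop 0) (cw s.unop 0)).symm.trans a4)
  simp only [add_d, ← a1, ← a2] at a5
  exact absurd a5 (by decide)

theorem result : ∃ (A R : Type) (_ : Ring A) (_ : Ring R) (φ : A ≃+* A) (c : R → ℤ → A),
    IsSL φ c ∧ RSD A ∧ IsArtinian Aᵐᵒᵖ A ∧ ¬ RSD R := by
  obtain ⟨R, _, c, h⟩ := exists_SL ph
  exact ⟨T, R, inferInstance, inferInstance, ph, c, h, yes, isArtinian_of_finite, no h⟩

end Pool.Agent.Results.MP_d4f5ca_al.Neg
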